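import Pool.Agent.X88.Preim

/-!
# The average degree of the irreducible factors of rational transforms grows linearly
-/

set_option autoImplicit false

open Polynomial Filter
open scoped OnePoint

namespace Pool.Agent.Results.MP_fa793f_nt.LinearGrowth

/-- The transform `f_R = h ^ k * f (g / h)`, `k = deg f`, for `R = g / h`. -/
noncomputable def transform {F : Type} [Field F] (g h f : F[X]) : F[X] :=
  ∑ i ∈ Finset.range (f.natDegree + 1), C (f.coeff i) * g ^ i * h ^ (f.natDegree - i)

/-- The distinct monic irreducible factors of `P`. -/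
def factors {F : Type} [Field F] (P : F[X]) : Set F[X] :=
  {p | p.Monic ∧ Irreducible p ∧ p ∣ P}

/-- The sum of the degrees of the distinct irreducible factors of `P`. -/
noncomputable def δ {F : Type} [Field F] (P : F[X]) : ℕ := ∑ᶠ p ∈ factors P, p.natDegree

/-- The number of distinct irreducible factors of `P`. -/
noncomputable def N {F : Type} [Field F] (P : F[X]) : ℕ := (factors P).ncard

/-- The average degree of the distinct irreducible factors of the `n`-th transform of `f`. -/
noncomputable def A {F : Type} [Field F] (g h f : F[X]) (n : ℕ) : ℝ :=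
  (δ ((transform g h)^[n] f) : ℝ) / N ((transform g h)^[n] f)

open Classical in
/-- The action of `R = g / h` (`g`, `h` coprime) on the projective line over a field `K`. -/
noncomputable def ev {K : Type} [Field K] (g h : K[X]) : OnePoint K → OnePoint K
  | some x => if h.eval x = 0 then ∞ else ((g.eval x / h.eval x : K) : OnePoint K)
  | none => if h.coeff (max g.natDegree h.natDegree) = 0 then ∞ else
      ((g.coeff (max g.natDegree h.natDegree) / h.coeff (max g.natDegree h.natDegree) : K) :
        OnePoint K)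

/-- The action of `R = g / h`, with `g`, `h` over `F`, on the projective line over the algebraic
closure of `F`. -/
noncomputable def R {F : Type} [Field F] (g h : F[X]) :
    OnePoint (AlgebraicClosure F) → OnePoint (AlgebraicClosure F) :=
  ev (g.map (algebraMap F (AlgebraicClosure F))) (h.map (algebraMap F (AlgebraicClosure F)))

/-- `α` is `R`-critical: the number of distinct solutions of `R^(n)(x) = α` is bounded in `n`. -/
def Critical {F : Type} [Field F] (g h : F[X]) (α : AlgebraicClosure F) : Prop :=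
  ∃ B : ℕ, ∀ n : ℕ, {x : AlgebraicClosure F |
    (R g h)^[n] (x : OnePoint (AlgebraicClosure F)) = (α : OnePoint (AlgebraicClosure F))}.encard ≤ B

open Pool.Agent.X88.Preim

section

variable {F : Type} [Field F]

/-- the distinct roots in the algebraic closure -/
noncomputable def Z (P : F[X]) : Finset (AlgebraicClosure F) := by
  classical exact (P.map (algebraMap F (AlgebraicClosure F))).roots.toFinset

lemma mem_Z {P : F[X]} (hP : P ≠ 0) (x : AlgebraicClosure F) : x ∈ Z P ↔ aeval x P = 0 := by
  classical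
  unfold Z
  rw [Multiset.mem_toFinset, mem_roots (map_ne_zero hP), IsRoot.def, eval_map_algebraMap]

lemma transform_aeval {g h f : F[X]} (x : AlgebraicClosure F) :
    aeval x (transform g h f) = ∑ i ∈ Finset.range (f.natDegree + 1),
      algebraMap F _ (f.coeff i) * aeval x g ^ i * aeval x h ^ (f.natDegree - i) := by
  simp only [transform, map_sum, map_mul, map_pow, aeval_C]

lemma root_transform {g h f : F[X]} (hc : IsCoprime g h) (hf : f ≠ 0)
    (x : AlgebraicClosure F) :
    aeval x (transform g h f) = 0 ↔ aeval x h ≠ 0 ∧ aeval (aeval x g / aeval x h) f = 0 := by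
  rw [transform_aeval]
  by_cases hx : aeval x h = 0
  · rw [Finset.sum_eq_single f.natDegree]
    · simp only [Nat.sub_self, pow_zero, mul_one, hx, ne_eq, not_true_eq_false, false_and, iff_false,
        mul_eq_zero, not_or]
      have hg : aeval x g ≠ 0 := by
        intro hg
        obtain ⟨a, b, hab⟩ := hc
        have := congrArg (aeval x) hab
        rw [map_add, map_mul, map_mul, hg, hx, mul_zero, mul_zero, add_zero, map_one] at this
        exact zero_ne_one this
      refine ⟨?_, pow_ne_zero _ hg⟩
      rw [map_eq_zero, coeff_natDegree, leadingCoeff_eq_zero]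
      exact hf
    · intro i hi hne
      rw [Finset.mem_range] at hi
      rw [hx, zero_pow (by omega), mul_zero]
    · intro h1
      exact absurd (Finset.mem_range.mpr (by omega)) h1
  · have h2 : ∑ i ∈ Finset.range (f.natDegree + 1),
      algebraMap F _ (f.coeff i) * aeval x g ^ i * aeval x h ^ (f.natDegree - i) =
      aeval x h ^ f.natDegree * aeval (aeval x g / aeval x h) f := by
      rw [aeval_eq_sum_range (p := f), Finset.mul_sum]
      refine Finset.sum_congr rfl fun i hi => ?_
      rw [Finset.mem_range] at hi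
      have h3 : aeval x h ^ f.natDegree = aeval x h ^ (f.natDegree - i) * aeval x h ^ i := by
        rw [← pow_add]; congr 1; omega
      rw [h3, div_pow, Algebra.smul_def]
      field_simp
    rw [h2, mul_eq_zero, pow_eq_zero_iff']
    tauto

lemma map_coprime {g h : F[X]} (hc : IsCoprime g h) :
    IsCoprime (g.map (algebraMap F (AlgebraicClosure F)))
      (h.map (algebraMap F (AlgebraicClosure F))) :=
  hc.map (mapRingHom (algebraMap F (AlgebraicClosure F)))

lemma root_iff_pre {g h f : F[X]} (hc : IsCoprime g h) (hd : 1 ≤ max g.natDegree h.natDegree)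
    (hf : f ≠ 0) (x : AlgebraicClosure F) :
    aeval x (transform g h f) = 0 ↔ x ∈ pre (g.map (algebraMap F (AlgebraicClosure F)))
      (h.map (algebraMap F (AlgebraicClosure F))) (Z f) := by
  rw [root_transform hc hf, mem_pre (map_coprime hc) (by rwa [natDegree_map, natDegree_map]),
    mem_Z hf, eval_map_algebraMap, eval_map_algebraMap]

lemma transform_ne {g h f : F[X]} (hc : IsCoprime g h) (hd : 1 ≤ max g.natDegree h.natDegree)
    (hf : f ≠ 0) : transform g h f ≠ 0 := by
  intro h0
  have hinf : Infinite (AlgebraicClosure F) := inferInstance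
  obtain ⟨x, hx⟩ := Infinite.exists_notMem_finset
    (pre (g.map (algebraMap F (AlgebraicClosure F)))
      (h.map (algebraMap F (AlgebraicClosure F))) (Z f))
  exact hx (by rw [← root_iff_pre hc hd hf, h0, map_zero])

lemma iter_ne {g h f : F[X]} (hc : IsCoprime g h) (hd : 1 ≤ max g.natDegree h.natDegree)
    (hf : f ≠ 0) (n : ℕ) : (transform g h)^[n] f ≠ 0 := by
  induction n with
  | zero => exact hf
  | succ n ih => rw [Function.iterate_succ_apply']; exact transform_ne hc hd ih

lemma Z_transform {g h f : F[X]} (hc : IsCoprime g h) (hd : 1 ≤ max g.natDegree h.natDegree)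
    (hf : f ≠ 0) : Z (transform g h f) = pre (g.map (algebraMap F (AlgebraicClosure F)))
      (h.map (algebraMap F (AlgebraicClosure F))) (Z f) := by
  ext x
  rw [mem_Z (transform_ne hc hd hf), root_iff_pre hc hd hf]

lemma alg (x : AlgebraicClosure F) : IsIntegral F x :=
  (AlgebraicClosure.isAlgebraic F).isIntegral.isIntegral x

open Classical in
lemma factors_eq {P : F[X]} (hP : P ≠ 0) : factors P = ↑((Z P).image (minpoly F)) := by
  ext p
  rw [Finset.coe_image, Set.mem_image]
  constructor
  · rintro ⟨hm, hi, hdvd⟩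
    obtain ⟨x, hx⟩ := IsAlgClosed.exists_aeval_eq_zero (AlgebraicClosure F) p
      (degree_pos_of_irreducible hi).ne'
    refine ⟨x, ?_, (minpoly.eq_of_irreducible_of_monic hi hx hm).symm⟩
    rw [Finset.mem_coe, mem_Z hP]
    exact aeval_eq_zero_of_dvd_aeval_eq_zero hdvd hx
  · rintro ⟨x, hx, rfl⟩
    rw [Finset.mem_coe, mem_Z hP] at hx
    exact ⟨minpoly.monic (alg x), minpoly.irreducible (alg x), minpoly.dvd F x hx⟩

lemma factors_eq' {P : F[X]} (hP : P ≠ 0) :
    factors P = (minpoly F) '' (↑(Z P) : Set (AlgebraicClosure F)) := by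
  classical
  rw [factors_eq hP, Finset.coe_image]

variable [Finite F]

open Classical in
lemma card_Z_irreducible {p : F[X]} (hi : Irreducible p) : (Z p).card = p.natDegree := by
  have hsep : p.Separable := PerfectField.separable_of_irreducible hi
  unfold Z
  rw [Multiset.toFinset_card_of_nodup (nodup_roots hsep.map), IsAlgClosed.card_roots_eq_natDegree,
    natDegree_map]

open Classical in
lemma card_Z {P : F[X]} (hP : P ≠ 0) : (Z P).card = δ P := by
  rw [δ, factors_eq hP, finsum_mem_coe_finset, Finset.card_eq_sum_card_image (minpoly F) (Z P)]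
  refine Finset.sum_congr rfl fun p hp => ?_
  have hp' : p ∈ factors P := by rw [factors_eq hP]; exact_mod_cast hp
  obtain ⟨hm, hi, hdvd⟩ := hp'
  rw [← card_Z_irreducible hi]
  congr 1
  ext x
  rw [Finset.mem_filter, mem_Z hP, mem_Z hi.ne_zero]
  constructor
  · rintro ⟨_, h⟩
    rw [← h]
    exact minpoly.aeval F x
  · intro hx
    exact ⟨aeval_eq_zero_of_dvd_aeval_eq_zero hdvd hx,
      (minpoly.eq_of_irreducible_of_monic hi hx hm).symm⟩

open Classical in
lemma N_le {P : F[X]} (hP : P ≠ 0) (M : ℕ) : N P * M ≤ M * Nat.card F ^ M + δ P := by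
  have hF : Fintype F := Fintype.ofFinite F
  set I := (Z P).image (minpoly F) with hI
  have hN : N P = I.card := by rw [N, factors_eq hP, Set.ncard_coe_finset]
  have hδ : δ P = ∑ p ∈ I, p.natDegree := by rw [δ, factors_eq hP, finsum_mem_coe_finset]
  have hsplit : (I.filter (fun p => p.natDegree < M)).card +
      (I.filter (fun p => ¬ p.natDegree < M)).card = I.card :=
    Finset.card_filter_add_card_filter_not _
  have h1 : (I.filter (fun p => p.natDegree < M)).card ≤ Nat.card F ^ M := by
    have h2 : Nat.card F ^ M = (Finset.univ : Finset (Fin M → F)).card := by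
      rw [Finset.card_univ, Fintype.card_fun, Fintype.card_fin, Nat.card_eq_fintype_card]
    rw [h2]
    refine Finset.card_le_card_of_injOn (fun p i => p.coeff i) (fun _ _ => Finset.mem_coe.mpr
      (Finset.mem_univ _)) ?_
    intro p hp r hr hpr
    rw [Finset.mem_coe, Finset.mem_filter] at hp hr
    ext i
    by_cases hi : i < M
    · exact congrFun hpr ⟨i, hi⟩
    · rw [coeff_eq_zero_of_natDegree_lt (by omega), coeff_eq_zero_of_natDegree_lt (by omega)]
  have h3 : (I.filter (fun p => ¬ p.natDegree < M)).card * M ≤ δ P := by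
    rw [hδ, ← smul_eq_mul]
    refine (Finset.card_nsmul_le_sum _ (fun p => p.natDegree) M fun p hp => ?_).trans
      (Finset.sum_le_sum_of_subset (Finset.filter_subset _ _))
    exact not_lt.mp (Finset.mem_filter.mp hp).2
  rw [hN, ← hsplit, add_mul]
  refine add_le_add ?_ h3
  rw [mul_comm]
  exact Nat.mul_le_mul_left _ h1

/-- Exponential growth. -/
lemma growth {g h f : F[X]} (hc : IsCoprime g h) (hd : 1 ≤ max g.natDegree h.natDegree)
    (hf : f ≠ 0) (hunb : ∀ B : ℕ, ∃ n, B < δ ((transform g h)^[n] f)) :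
    ∃ n₀ : ℕ, ∀ n, n₀ ≤ n → 2 ^ (n - n₀) ≤ δ ((transform g h)^[n] f) := by
  obtain ⟨p, hp⟩ := CharP.exists F
  have hpp : Fact p.Prime := ⟨CharP.char_is_prime F p⟩
  have hK : CharP (AlgebraicClosure F) p :=
    charP_of_injective_algebraMap (algebraMap F (AlgebraicClosure F)).injective p
  obtain ⟨D, C, hD, hDC⟩ := exists_degree p _ (g.map (algebraMap F (AlgebraicClosure F)))
    (h.map (algebraMap F (AlgebraicClosure F))) (map_coprime hc)
    (by rwa [natDegree_map, natDegree_map]) le_rfl
  set s : ℕ → ℕ := fun n => δ ((transform g h)^[n] f) with hs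
  have hstep : ∀ n, s (n + 1) ≤ D * s n ∧ D * s n ≤ s (n + 1) + C := by
    intro n
    have h1 := hDC (Z ((transform g h)^[n] f))
    rw [← Z_transform hc hd (iter_ne hc hd hf n), card_Z (iter_ne hc hd hf n),
      card_Z (transform_ne hc hd (iter_ne hc hd hf n)), ← Function.iterate_succ_apply' (transform g h) n f] at h1
    exact h1
  have hD2 : 2 ≤ D := by
    by_contra hlt
    have hD1 : D = 1 := by omega
    have hle : ∀ n, s n ≤ s 0 := by
      intro n
      induction n with
      | zero => exact le_rfl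
      | succ n ih =>
        have := (hstep n).1
        rw [hD1, one_mul] at this
        exact this.trans ih
    obtain ⟨n, hn⟩ := hunb (s 0)
    exact absurd (hle n) (not_le.mpr hn)
  obtain ⟨n₀, hn₀⟩ := hunb C
  refine ⟨n₀, fun n hn => ?_⟩
  obtain ⟨k, rfl⟩ := Nat.exists_eq_add_of_le hn
  have key : ∀ k, 2 ^ k + C ≤ s (n₀ + k) := by
    intro k
    induction k with
    | zero =>
      have : C < s n₀ := hn₀
      simpa [add_comm] using this
    | succ k ih =>
      have h1 := (hstep (n₀ + k)).2
      have h2 : 2 * s (n₀ + k) ≤ D * s (n₀ + k) := Nat.mul_le_mul_right _ hD2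
      rw [← add_assoc, pow_succ]
      omega
  have := key k
  have e : n₀ + k - n₀ = k := by omega
  rw [e]
  change 2 ^ k ≤ s (n₀ + k)
  omega

theorem part_one {g h f : F[X]} (hc : IsCoprime g h) (hd : 1 ≤ max g.natDegree h.natDegree)
    (hf : f ≠ 0) (hunb : ∀ B : ℕ, ∃ n, B < δ ((transform g h)^[n] f)) :
    ∃ c : ℝ, 0 < c ∧ ∀ᶠ n : ℕ in atTop, c * n ≤ A g h f n := by
  obtain ⟨n₀, hn₀⟩ := growth hc hd hf hunb
  have hF : Fintype F := Fintype.ofFinite F
  set q := Nat.card F with hq
  have hq1 : 1 ≤ q := Nat.card_pos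
  set t : ℕ := 4 * q with ht
  have ht1 : 1 ≤ t := by omega
  refine ⟨1 / (4 * t), by positivity, ?_⟩
  filter_upwards [eventually_ge_atTop (max (2 * n₀) t)] with n hn
  have hn1 : 2 * n₀ ≤ n := (le_max_left _ _).trans hn
  have hn2 : t ≤ n := (le_max_right _ _).trans hn
  set P := (transform g h)^[n] f with hP
  have hP0 : P ≠ 0 := iter_ne hc hd hf n
  set M := n / t with hM
  have hM1 : 1 ≤ M := Nat.div_pos hn2 ht1
  have hMt : M * t ≤ n := Nat.div_mul_le_self n t
  have hMn : n ≤ 2 * (M * t) := by
    have : n < M * t + t := by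
      have := Nat.lt_div_mul_add (a := n) (b := t) ht1
      exact this
    nlinarith
  have hgrow : 2 ^ (n - n₀) ≤ δ P := hn₀ n (by omega)
  have hsmall : M * q ^ M ≤ δ P := by
    have h1 : q ^ M ≤ 2 ^ (q * M) := by
      rw [pow_mul]
      exact Nat.pow_le_pow_left Nat.lt_two_pow_self.le M
    have h2 : M ≤ 2 ^ (q * M) :=
      Nat.lt_two_pow_self.le.trans (Nat.pow_le_pow_right (by norm_num) (Nat.le_mul_of_pos_left M hq1))
    calc M * q ^ M ≤ 2 ^ (q * M) * 2 ^ (q * M) := Nat.mul_le_mul h2 h1
      _ = 2 ^ (q * M + q * M) := by rw [pow_add]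
      _ ≤ 2 ^ (n - n₀) := by
        apply Nat.pow_le_pow_right (by norm_num)
        have h3 : M * t = 2 * (q * M + q * M) := by rw [ht]; ring
        omega
      _ ≤ δ P := hgrow
  have hNM := N_le hP0 M
  rw [← hq] at hNM
  have hNM2 : N P * M ≤ 2 * δ P := by omega
  have hδ0 : 0 < δ P := lt_of_lt_of_le (by positivity) hgrow
  have hN0 : 0 < N P := by
    by_contra h0
    have h0' : N P = 0 := by omega
    have hfin : (factors P).Finite := by rw [factors_eq hP0]; exact Finset.finite_toSet _
    have hemp : factors P = ∅ := by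
      rw [N, Set.ncard_eq_zero hfin] at h0'
      exact h0'
    rw [δ, hemp, finsum_mem_empty] at hδ0
    exact lt_irrefl _ hδ0
  rw [A, ← hP, le_div_iff₀ (by exact_mod_cast hN0)]
  have h4 : (N P : ℝ) * M ≤ 2 * δ P := by exact_mod_cast hNM2
  have h5 : (n : ℝ) ≤ 2 * (M * t) := by exact_mod_cast hMn
  have ht0 : (0 : ℝ) < t := by exact_mod_cast ht1
  have h6 : 1 / (4 * (t : ℝ)) * n ≤ M / 2 := by
    rw [div_mul_eq_mul_div, one_mul, div_le_div_iff₀ (by positivity) (by norm_num)]
    nlinarith
  calc 1 / (4 * (t : ℝ)) * n * N P ≤ M / 2 * N P := by gcongr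
    _ ≤ δ P := by linarith

end

/-! ### Non-critical roots -/

section

variable {F : Type} [Field F]

open Classical in
lemma R_coe (g h : F[X]) (x : AlgebraicClosure F) : R g h (x : OnePoint (AlgebraicClosure F)) =
    if aeval x h = 0 then ∞ else
      ((aeval x g / aeval x h : AlgebraicClosure F) : OnePoint (AlgebraicClosure F)) := by
  have : R g h (x : OnePoint (AlgebraicClosure F)) =
    if (h.map (algebraMap F (AlgebraicClosure F))).eval x = 0 then ∞ else
      (((g.map (algebraMap F (AlgebraicClosure F))).eval x /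
        (h.map (algebraMap F (AlgebraicClosure F))).eval x : AlgebraicClosure F) :
        OnePoint (AlgebraicClosure F)) := rfl
  rw [this, eval_map_algebraMap, eval_map_algebraMap]

open Classical in
lemma R_infty (g h : F[X]) : R g h ∞ =
    if h.coeff (max g.natDegree h.natDegree) = 0 then ∞ else
      ((algebraMap F (AlgebraicClosure F) (g.coeff (max g.natDegree h.natDegree) /
        h.coeff (max g.natDegree h.natDegree)) : AlgebraicClosure F) :
        OnePoint (AlgebraicClosure F)) := by
  have : R g h ∞ = if (h.map (algebraMap F (AlgebraicClosure F))).coeff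
      (max (g.map (algebraMap F (AlgebraicClosure F))).natDegree
        (h.map (algebraMap F (AlgebraicClosure F))).natDegree) = 0 then ∞ else
      (((g.map (algebraMap F (AlgebraicClosure F))).coeff
        (max (g.map (algebraMap F (AlgebraicClosure F))).natDegree
          (h.map (algebraMap F (AlgebraicClosure F))).natDegree) /
        (h.map (algebraMap F (AlgebraicClosure F))).coeff
        (max (g.map (algebraMap F (AlgebraicClosure F))).natDegree
          (h.map (algebraMap F (AlgebraicClosure F))).natDegree) : AlgebraicClosure F) :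
        OnePoint (AlgebraicClosure F)) := rfl
  rw [this, natDegree_map, natDegree_map, coeff_map, coeff_map, map_div₀]
  by_cases h0 : h.coeff (max g.natDegree h.natDegree) = 0
  · rw [if_pos h0, if_pos (by rw [h0, map_zero])]
  · rw [if_neg h0, if_neg (by rw [map_eq_zero]; exact h0)]

/-- The points of the projective line over `F`. -/
def rational (y : OnePoint (AlgebraicClosure F)) : Prop :=
  y = ∞ ∨ ∃ a : F, y = ((algebraMap F (AlgebraicClosure F) a : AlgebraicClosure F) :
    OnePoint (AlgebraicClosure F))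

open Classical in
lemma rational_R (g h : F[X]) {y : OnePoint (AlgebraicClosure F)} (hy : rational y) :
    rational (R g h y) := by
  rcases hy with rfl | ⟨a, rfl⟩
  · rw [R_infty]
    split_ifs
    · exact Or.inl rfl
    · exact Or.inr ⟨_, rfl⟩
  · rw [R_coe]
    split_ifs
    · exact Or.inl rfl
    · refine Or.inr ⟨g.eval a / h.eval a, ?_⟩
      rw [aeval_algebraMap_apply, aeval_algebraMap_apply, map_div₀]
      simp only [coe_aeval_eq_eval]

lemma iter_rational (g h : F[X]) (n : ℕ) : rational ((R g h)^[n] ∞) := by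
  induction n with
  | zero => exact Or.inl rfl
  | succ n ih => rw [Function.iterate_succ_apply']; exact rational_R g h ih

open Classical in
lemma mem_iter {g h f : F[X]} (hc : IsCoprime g h) (hd : 1 ≤ max g.natDegree h.natDegree)
    (hf : f ≠ 0) {α : AlgebraicClosure F} (hα : aeval α f = 0)
    (hinf : ∀ n, (R g h)^[n] ∞ ≠ (α : OnePoint (AlgebraicClosure F))) (n : ℕ) :
    ∀ x : AlgebraicClosure F, (R g h)^[n] (x : OnePoint (AlgebraicClosure F)) =
      (α : OnePoint (AlgebraicClosure F)) → x ∈ Z ((transform g h)^[n] f) := by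
  induction n with
  | zero =>
    intro x hx
    simp only [Function.iterate_zero, id_eq] at hx ⊢
    rw [OnePoint.coe_eq_coe] at hx
    rw [hx, mem_Z hf]
    exact hα
  | succ n ih =>
    intro x hx
    rw [Function.iterate_succ_apply, R_coe] at hx
    by_cases h0 : aeval x h = 0
    · rw [if_pos h0] at hx
      exact absurd hx (hinf n)
    · rw [if_neg h0] at hx
      have h1 := ih _ hx
      rw [mem_Z (iter_ne hc hd hf n)] at h1
      rw [Function.iterate_succ_apply', mem_Z (transform_ne hc hd (iter_ne hc hd hf n)),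
        root_transform hc (iter_ne hc hd hf n)]
      exact ⟨h0, h1⟩

theorem part_two [Finite F] {g h f : F[X]} (hc : IsCoprime g h)
    (hd : 1 ≤ max g.natDegree h.natDegree) (hf : f ≠ 0) {α : AlgebraicClosure F}
    (hα : aeval α f = 0) (hcrit : ¬ Critical g h α)
    (hinf : α ∉ Set.range (algebraMap F (AlgebraicClosure F)) ∨
      ∀ n, (R g h)^[n] ∞ ≠ (α : OnePoint (AlgebraicClosure F))) :
    ∃ c : ℝ, 0 < c ∧ ∀ᶠ n : ℕ in atTop, c * n ≤ A g h f n := by
  have hinf' : ∀ n, (R g h)^[n] ∞ ≠ (α : OnePoint (AlgebraicClosure F)) := by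
    rcases hinf with h1 | h1
    · intro n hn
      rcases iter_rational g h n with h2 | ⟨a, ha⟩
      · rw [h2] at hn
        exact OnePoint.infty_ne_coe α hn
      · rw [ha, OnePoint.coe_eq_coe] at hn
        exact h1 ⟨a, hn⟩
    · exact h1
  refine part_one hc hd hf fun B => ?_
  unfold Critical at hcrit
  push Not at hcrit
  obtain ⟨n, hn⟩ := hcrit B
  refine ⟨n, ?_⟩
  rw [← card_Z (iter_ne hc hd hf n)]
  have h1 : {x : AlgebraicClosure F |
      (R g h)^[n] (x : OnePoint (AlgebraicClosure F)) = (α : OnePoint (AlgebraicClosure F))} ⊆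
      ↑(Z ((transform g h)^[n] f)) := fun x hx => mem_iter hc hd hf hα hinf' n x hx
  have h2 := Set.encard_le_encard h1
  rw [Set.encard_coe_eq_coe_finsetCard] at h2
  exact_mod_cast hn.trans_le h2

end

/-! ### Roots lost through infinity -/

section

/-- the algebraic closure of the field with two elements -/
abbrev K₂ : Type := AlgebraicClosure (ZMod 2)

/-- the denominator `1 + (x + 1) ^ 3` -/
noncomputable def h₂ : (ZMod 2)[X] := 1 + (X + 1) ^ 3

lemma two_eq : (2 : K₂) = 0 := by
  have h1 : CharP K₂ 2 :=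
    charP_of_injective_algebraMap (algebraMap (ZMod 2) K₂).injective 2
  exact_mod_cast CharP.cast_eq_zero K₂ 2

lemma add_one_eq_zero_iff (x : K₂) : x + 1 = 0 ↔ x = 1 := by
  have h1 := two_eq
  constructor
  · intro h; linear_combination h - h1
  · rintro rfl; linear_combination h1

lemma h₂_natDegree : h₂.natDegree = 3 := by
  unfold h₂
  compute_degree!

lemma h₂_coeff : h₂.coeff 3 = 1 := by
  unfold h₂
  have : (1 + (X + 1) ^ 3 : (ZMod 2)[X]) = X ^ 3 + C 3 * X ^ 2 + C 3 * X + C 2 := by
    simp only [map_ofNat]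
    ring
  rw [this]
  simp [coeff_X_pow]

lemma h₂_aeval (x : K₂) : aeval x h₂ = 1 + (x + 1) ^ 3 := by
  unfold h₂
  simp

lemma h₂_der (x : K₂) : (derivative (h₂.map (algebraMap (ZMod 2) K₂))).eval x = 3 * (x + 1) ^ 2 := by
  have : derivative h₂ = 3 * (X + 1) ^ 2 := by
    unfold h₂
    rw [derivative_add, derivative_one, zero_add, derivative_pow]
    simp only [Nat.cast_ofNat, Nat.add_one_sub_one, derivative_add, derivative_X, derivative_one,
      add_zero, mul_one, map_ofNat]
  rw [derivative_map, eval_map_algebraMap, this, map_mul, map_ofNat]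
  simp

lemma hc₂ : IsCoprime (1 : (ZMod 2)[X]) h₂ := isCoprime_one_left

lemma hd₂ : 1 ≤ max (1 : (ZMod 2)[X]).natDegree h₂.natDegree := by
  rw [h₂_natDegree, natDegree_one]; norm_num

open Classical in
lemma R₂_infty : R 1 h₂ ∞ = ((0 : K₂) : OnePoint K₂) := by
  rw [R_infty, natDegree_one, h₂_natDegree, max_eq_right (by norm_num), h₂_coeff,
    if_neg one_ne_zero]
  rw [coeff_one, if_neg (by norm_num), zero_div, map_zero]

open Classical in
lemma R₂_one : R 1 h₂ ((1 : K₂) : OnePoint K₂) = ((1 : K₂) : OnePoint K₂) := by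
  have h1 : (1 : K₂) + 1 = 0 := by rw [one_add_one_eq_two]; exact two_eq
  rw [R_coe, h₂_aeval, h1, map_one]
  simp

open Classical in
lemma fib₂ {y : K₂} (h1 : y ≠ 1) (h0 : y ≠ 0) :
    ((1 : (ZMod 2)[X]).map (algebraMap (ZMod 2) K₂) -
      C y * h₂.map (algebraMap (ZMod 2) K₂)).roots.toFinset.card = 3 := by
  have e := card_fib_eq (g := (1 : (ZMod 2)[X]).map (algebraMap (ZMod 2) K₂))
    (h := h₂.map (algebraMap (ZMod 2) K₂)) (y := y)
    (fib_ne (map_coprime hc₂) (by rw [natDegree_map, natDegree_map]; exact hd₂) y) ?_ ?_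
  · rw [natDegree_map, natDegree_map, natDegree_one, h₂_natDegree] at e
    exact e
  · rw [natDegree_map, natDegree_map, natDegree_one, h₂_natDegree, max_eq_right (by norm_num),
      coeff_map, coeff_map, h₂_coeff, map_one, mul_one, coeff_one, if_neg (by norm_num), map_zero]
    exact h0.symm
  · intro x hx hx'
    rw [h₂_der, Polynomial.map_one, derivative_one, eval_zero] at hx'
    rw [Polynomial.map_one, eval_one, eval_map_algebraMap, h₂_aeval] at hx
    have h3 : (3 : K₂) = 1 := by linear_combination two_eq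
    rw [h3, one_mul] at hx'
    have h4 : (x + 1) ^ 2 = 0 := by
      rcases mul_eq_zero.mp hx'.symm with h | h
      · exact absurd h h0
      · exact h
    have h5 : x + 1 = 0 := pow_eq_zero_iff (by norm_num) |>.mp h4
    rw [h5] at hx
    apply h1
    simpa using hx.symm

open Classical in
lemma base₂ : (h₂.map (algebraMap (ZMod 2) K₂)).roots.toFinset.card = 3 := by
  have e := card_fib_eq (g := h₂.map (algebraMap (ZMod 2) K₂))
    (h := (1 : (ZMod 2)[X]).map (algebraMap (ZMod 2) K₂)) (y := 0)
    (fib_ne (map_coprime hc₂).symm (by rw [natDegree_map, natDegree_map, max_comm]; exact hd₂) 0)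
    ?_ ?_
  · rw [natDegree_map, natDegree_map, natDegree_one, h₂_natDegree, C_0, zero_mul, sub_zero] at e
    exact e
  · rw [natDegree_map, natDegree_map, natDegree_one, h₂_natDegree, max_eq_left (by norm_num),
      coeff_map, h₂_coeff, map_one, zero_mul]
    exact one_ne_zero
  · intro x hx hx'
    rw [h₂_der, zero_mul] at hx'
    rw [zero_mul, eval_map_algebraMap, h₂_aeval] at hx
    have h3 : (3 : K₂) = 1 := by linear_combination two_eq
    rw [h3, one_mul] at hx'
    have h5 : x + 1 = 0 := pow_eq_zero_iff (by norm_num) |>.mp hx'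
    rw [h5] at hx
    simp at hx

lemma iter₂_one (n : ℕ) : (R 1 h₂)^[n] ((1 : K₂) : OnePoint K₂) = ((1 : K₂) : OnePoint K₂) :=
  Function.iterate_fixed R₂_one n

open Classical in
lemma many₂ (n : ℕ) : ∃ Y : Finset K₂, n + 2 ≤ Y.card ∧
    ∀ y ∈ Y, (R 1 h₂)^[n + 1] (y : OnePoint K₂) = ∞ := by
  induction n with
  | zero =>
    refine ⟨_, by rw [base₂]; norm_num, fun y hy => ?_⟩
    rw [Multiset.mem_toFinset, mem_roots'] at hy
    have h1 := hy.2
    rw [IsRoot.def, eval_map_algebraMap] at h1
    rw [Function.iterate_one, R_coe, if_pos h1]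
  | succ n ih =>
    obtain ⟨Y, hY, hY2⟩ := ih
    have hcK := map_coprime hc₂
    have hdK : 1 ≤ max ((1 : (ZMod 2)[X]).map (algebraMap (ZMod 2) K₂)).natDegree
        (h₂.map (algebraMap (ZMod 2) K₂)).natDegree := by
      rw [natDegree_map, natDegree_map]; exact hd₂
    refine ⟨pre ((1 : (ZMod 2)[X]).map (algebraMap (ZMod 2) K₂))
      (h₂.map (algebraMap (ZMod 2) K₂)) (Y.erase 0), ?_, fun x hx => ?_⟩
    · rw [card_pre hcK hdK]
      have h1 : ∀ y ∈ Y.erase 0, ((1 : (ZMod 2)[X]).map (algebraMap (ZMod 2) K₂) -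
          C y * h₂.map (algebraMap (ZMod 2) K₂)).roots.toFinset.card = 3 := by
        intro y hy
        rw [Finset.mem_erase] at hy
        refine fib₂ ?_ hy.1
        rintro rfl
        have := hY2 _ hy.2
        rw [iter₂_one] at this
        exact OnePoint.coe_ne_infty _ this
      rw [Finset.sum_congr rfl h1, Finset.sum_const, smul_eq_mul]
      have h2 := Finset.pred_card_le_card_erase (s := Y) (a := 0)
      omega
    · rw [mem_pre hcK hdK, eval_map_algebraMap, eval_map_algebraMap, Finset.mem_erase] at hx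
      rw [Function.iterate_succ_apply, R_coe, if_neg hx.1]
      exact hY2 _ hx.2.2

lemma not_critical₂ : ¬ Critical 1 h₂ (0 : K₂) := by
  rintro ⟨B, hB⟩
  obtain ⟨Y, hY, hY2⟩ := many₂ B
  have h1 : (↑Y : Set K₂) ⊆ {x : K₂ | (R 1 h₂)^[B + 2] (x : OnePoint K₂) =
      ((0 : K₂) : OnePoint K₂)} := by
    intro y hy
    change (R 1 h₂)^[B + 2] (y : OnePoint K₂) = ((0 : K₂) : OnePoint K₂)
    rw [Function.iterate_succ_apply', hY2 y hy, R₂_infty]
  have h2 := (Set.encard_le_encard h1).trans (hB (B + 2))
  rw [Set.encard_coe_eq_coe_finsetCard] at h2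
  have h3 : Y.card ≤ B := by exact_mod_cast h2
  omega

/-- the polynomial `x (x + 1)` -/
noncomputable def f₂ : (ZMod 2)[X] := X * (X + 1)

lemma f₂_natDegree : f₂.natDegree = 2 := by
  unfold f₂
  compute_degree!

lemma f₂_ne : f₂ ≠ 0 := by
  intro h
  have := f₂_natDegree
  rw [h, natDegree_zero] at this
  norm_num at this

lemma f₂_root : aeval (0 : K₂) f₂ = 0 := by
  unfold f₂
  simp

lemma Z₂ (n : ℕ) : Z ((transform 1 h₂)^[n + 1] f₂) = {1} := by
  induction n with
  | zero =>
    rw [Function.iterate_one]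
    ext x
    rw [mem_Z (transform_ne hc₂ hd₂ f₂_ne), root_transform hc₂ f₂_ne, h₂_aeval,
      Finset.mem_singleton]
    unfold f₂
    simp only [map_one, map_mul, map_add, aeval_X, one_div]
    constructor
    · rintro ⟨h1, h2⟩
      rcases mul_eq_zero.mp h2 with h3 | h3
      · rw [inv_eq_zero] at h3
        exact absurd h3 h1
      · rw [add_one_eq_zero_iff, inv_eq_one] at h3
        rw [← add_one_eq_zero_iff]
        have h4 : (x + 1) ^ 3 = 0 := by linear_combination h3
        exact pow_eq_zero_iff (by norm_num) |>.mp h4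
    · rintro rfl
      have h1 : (1 : K₂) + 1 = 0 := by rw [one_add_one_eq_two]; exact two_eq
      rw [h1]
      norm_num
      exact two_eq
  | succ n ih =>
    have hne := iter_ne hc₂ hd₂ f₂_ne (n + 1)
    rw [Function.iterate_succ_apply', Z_transform hc₂ hd₂ hne, ih]
    ext x
    rw [mem_pre (map_coprime hc₂) (by rw [natDegree_map, natDegree_map]; exact hd₂),
      eval_map_algebraMap, eval_map_algebraMap, h₂_aeval, map_one, Finset.mem_singleton,
      Finset.mem_singleton]
    constructor
    · rintro ⟨h1, h2⟩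
      rw [one_div, inv_eq_one] at h2
      rw [← add_one_eq_zero_iff]
      have h4 : (x + 1) ^ 3 = 0 := by linear_combination h2
      exact pow_eq_zero_iff (by norm_num) |>.mp h4
    · rintro rfl
      have h1 : (1 : K₂) + 1 = 0 := by rw [one_add_one_eq_two]; exact two_eq
      rw [h1]
      norm_num

lemma A₂ (n : ℕ) : A 1 h₂ f₂ (n + 1) = 1 := by
  have hne := iter_ne hc₂ hd₂ f₂_ne (n + 1)
  have h1 : δ ((transform 1 h₂)^[n + 1] f₂) = 1 := by
    rw [← card_Z hne, Z₂, Finset.card_singleton]
  have h2 : N ((transform 1 h₂)^[n + 1] f₂) = 1 := by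
    rw [N, factors_eq' hne, Z₂, Finset.coe_singleton, Set.image_singleton, Set.ncard_singleton]
  rw [A, h1, h2]
  norm_num

end

/-- The three statements on the conjecture `A_{f,R}(n) ≫ n`. -/
theorem result :
    (∀ (F : Type) [Field F] [Finite F] (g h f : F[X]), IsCoprime g h →
      1 ≤ max g.natDegree h.natDegree → f ≠ 0 →
      (∀ B : ℕ, ∃ n : ℕ, B < δ ((transform g h)^[n] f)) →
      ∃ c : ℝ, 0 < c ∧ ∀ᶠ n : ℕ in atTop, c * n ≤ A g h f n) ∧
    (∀ (F : Type) [Field F] [Finite F] (g h f : F[X]), IsCoprime g h →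
      1 ≤ max g.natDegree h.natDegree → f ≠ 0 →
      ∀ α : AlgebraicClosure F, aeval α f = 0 → ¬ Critical g h α →
      (α ∉ Set.range (algebraMap F (AlgebraicClosure F)) ∨
        ∀ n : ℕ, (R g h)^[n] ∞ ≠ (α : OnePoint (AlgebraicClosure F))) →
      ∃ c : ℝ, 0 < c ∧ ∀ᶠ n : ℕ in atTop, c * n ≤ A g h f n) ∧
    (∃ g h f : (ZMod 2)[X], IsCoprime g h ∧ 1 ≤ max g.natDegree h.natDegree ∧
      1 ≤ f.natDegree ∧ (∃ α : AlgebraicClosure (ZMod 2), aeval α f = 0 ∧ ¬ Critical g h α) ∧
      ∀ n : ℕ, 1 ≤ n → A g h f n = 1) := by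
  refine ⟨?_, ?_, ?_⟩
  · intro F _ _ g h f hc hd hf hunb
    exact part_one hc hd hf hunb
  · intro F _ _ g h f hc hd hf α hα hcrit hinf
    exact part_two hc hd hf hα hcrit hinf
  · refine ⟨1, h₂, f₂, hc₂, hd₂, by rw [f₂_natDegree]; norm_num, ⟨0, f₂_root, not_critical₂⟩, ?_⟩
    intro n hn
    obtain ⟨k, rfl⟩ := Nat.exists_eq_add_of_le' hn
    exact A₂ k

end Pool.Agent.Results.MP_fa793f_nt.LinearGrowth
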